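import Pool.Agent.Y208.LQ.Stm
import Pool.Agent.Helper702.SF.P_relD_comp

/-!
# LQ-RCOMP: the relators `relL` are computable
-/

set_option autoImplicit false

namespace Pool.Agent.Y839.LQ

open Pool.SF Y208.LQ

theorem rl_fmul {n : ℕ} : Primrec₂ (@fmul n) := by
  show Primrec (fun r : FS n × FS n => fmul r.1 r.2)
  unfold fmul
  refine Primrec.list_flatMap Primrec.fst ?_
  show Primrec (fun r : (FS n × FS n) × (Bool × List (Fin n)) =>
    r.1.2.map (fun y => (r.2.1 == y.1, r.2.2 ++ y.2)))
  refine Primrec.list_map (Primrec.snd.comp Primrec.fst) ?_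
  show Primrec (fun r : ((FS n × FS n) × (Bool × List (Fin n))) × (Bool × List (Fin n)) =>
    (r.1.2.1 == r.2.1, r.1.2.2 ++ r.2.2))
  refine Primrec.pair ?_ ?_
  · have h : Primrec (fun p : Bool × Bool => p.1 == p.2) := Primrec.dom_finite _
    exact h.comp ((Primrec.fst.comp (Primrec.snd.comp Primrec.fst)).pair
      (Primrec.fst.comp Primrec.snd))
  · exact Primrec.list_append.comp (Primrec.snd.comp (Primrec.snd.comp Primrec.fst))
      (Primrec.snd.comp Primrec.snd)

theorem rl_fneg {n : ℕ} : Primrec (@fneg n) := by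
  unfold fneg
  refine Primrec.list_map Primrec.id ?_
  show Primrec (fun r : FS n × (Bool × List (Fin n)) => (!r.2.1, r.2.2))
  refine Primrec.pair ?_ (Primrec.snd.comp Primrec.snd)
  have h : Primrec (fun p : Bool => !p) := Primrec.dom_finite _
  exact h.comp (Primrec.fst.comp Primrec.snd)

/-- one step of the course-of-values recursion for `EC` -/
def stp (n : ℕ) (l : List (FS n)) : FS n :=
  if l.length % 2 = 0 then
    ((List.finRange n).map (fun i => ([(true, [i])] : FS n))).getD (l.length / 2) []
  else
    fmul (l.getD (Nat.unpair (l.length / 2)).1 []) (l.getD (Nat.unpair (l.length / 2)).2 []) ++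
      fneg (fmul (l.getD (Nat.unpair (l.length / 2)).2 [])
        (l.getD (Nat.unpair (l.length / 2)).1 []))

theorem stp_primrec (n : ℕ) : Primrec (stp n) := by
  unfold stp
  have hl : Primrec (fun l : List (FS n) => l.length / 2) :=
    Primrec.nat_div.comp Primrec.list_length (Primrec.const 2)
  have hu : Primrec (fun l : List (FS n) => Nat.unpair (l.length / 2)) :=
    Primrec.unpair.comp hl
  have ha : Primrec (fun l : List (FS n) => l.getD (Nat.unpair (l.length / 2)).1 []) :=
    (Primrec.list_getD ([] : FS n)).comp Primrec.id (Primrec.fst.comp hu)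
  have hb : Primrec (fun l : List (FS n) => l.getD (Nat.unpair (l.length / 2)).2 []) :=
    (Primrec.list_getD ([] : FS n)).comp Primrec.id (Primrec.snd.comp hu)
  refine Primrec.ite ?_ ?_ ?_
  · exact Primrec.eq.comp (Primrec.nat_mod.comp Primrec.list_length (Primrec.const 2))
      (Primrec.const 0)
  · exact (Primrec.list_getD ([] : FS n)).comp (Primrec.const _) hl
  · exact Primrec.list_append.comp (rl_fmul.comp ha hb) (rl_fneg.comp (rl_fmul.comp hb ha))

theorem stp_EC (n k : ℕ) : stp n ((List.range k).map (EC n)) = EC n k := by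
  rw [EC]
  unfold stp
  simp only [List.length_map, List.length_range]
  by_cases hk : k % 2 = 0
  · rw [if_pos hk, dif_pos hk]
    by_cases h : k / 2 < n
    · rw [dif_pos h]
      simp [List.getD_eq_getElem?_getD, h]
    · rw [dif_neg h]
      rw [List.getD_eq_default]
      simpa using h
  · rw [if_neg hk, dif_neg hk]
    have h1 := Nat.unpair_left_le (k / 2)
    have h2 := Nat.unpair_right_le (k / 2)
    have h3 : (Nat.unpair (k / 2)).1 < k := by omega
    have h4 : (Nat.unpair (k / 2)).2 < k := by omega
    have e1 : ((List.range k).map (EC n)).getD (Nat.unpair (k / 2)).1 [] =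
        EC n (Nat.unpair (k / 2)).1 := by
      simp [List.getD_eq_getElem?_getD, h3]
    have e2 : ((List.range k).map (EC n)).getD (Nat.unpair (k / 2)).2 [] =
        EC n (Nat.unpair (k / 2)).2 := by
      simp [List.getD_eq_getElem?_getD, h4]
    rw [e1, e2]

theorem rl_EC (n : ℕ) : Primrec (EC n) := by
  have h : Primrec₂ (fun (_ : Unit) k => EC n k) := by
    refine Primrec.nat_strong_rec (fun (_ : Unit) k => EC n k)
      (g := fun _ l => some (stp n l)) ?_ ?_
    · exact (Primrec.option_some.comp ((stp_primrec n).comp Primrec.snd)).to₂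
    · intro a k
      exact congrArg some (stp_EC n k)
  exact h.comp (Primrec.const ()) Primrec.id

theorem rl_ECL (n : ℕ) : Primrec (ECL n) := by
  unfold ECL
  refine Primrec.list_foldr (h := fun _ (p : ℕ × FS n) => fmul (EC n p.1) p.2) Primrec.id
    (Primrec.const _) ?_
  show Primrec (fun r : List ℕ × (ℕ × FS n) => fmul (EC n r.2.1) r.2.2)
  exact rl_fmul.comp ((rl_EC n).comp (Primrec.fst.comp Primrec.snd))
    (Primrec.snd.comp Primrec.snd)

theorem rl_inlmap {n : ℕ} : Primrec (fun p : FS n =>
    (p.map (fun x => (x.1, x.2.map .inl)) : List (Bool × List (GD n)))) := by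
  refine Primrec.list_map Primrec.id ?_
  show Primrec (fun r : FS n × (Bool × List (Fin n)) =>
    (r.2.1, (r.2.2.map Sum.inl : List (GD n))))
  exact (Primrec.fst.comp Primrec.snd).pair (rc_inl.comp (Primrec.snd.comp Primrec.snd))

theorem rl_rep {n : ℕ} : Primrec₂ (fun (k : ℕ) (x : FS n) => (List.replicate k x).flatten) := by
  show Primrec (fun r : ℕ × FS n => (List.replicate r.1 r.2).flatten)
  exact Primrec.list_flatten.comp (rc_rep.comp Primrec.fst Primrec.snd)

theorem rl_rel1 {n : ℕ} : Primrec₂ (@rel1L n) := by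
  unfold rel1L
  show Primrec (fun r : FS n × (ℕ × List (ℤ × FS n)) =>
    (((List.replicate r.2.1 r.1).flatten) ++ r.2.2.flatMap (fun q =>
    (List.replicate q.1.natAbs (if q.1 < 0 then q.2 else fneg q.2)).flatten)).map
      (fun x => (x.1, (x.2.map Sum.inl : List (GD n)))))
  refine rl_inlmap.comp ?_
  refine Primrec.list_append.comp ?_ ?_
  · exact rl_rep.comp (Primrec.fst.comp Primrec.snd) Primrec.fst
  · refine Primrec.list_flatMap (Primrec.snd.comp Primrec.snd) ?_
    show Primrec (fun r : (FS n × (ℕ × List (ℤ × FS n))) × (ℤ × FS n) =>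
      (List.replicate r.2.1.natAbs (if r.2.1 < 0 then r.2.2 else fneg r.2.2)).flatten)
    refine rl_rep.comp (natAbs_comp.1.comp (Primrec.fst.comp Primrec.snd)) ?_
    have hc : PrimrecPred (fun z : ℤ => z < 0) := ⟨inferInstance, natAbs_comp.2⟩
    exact Primrec.ite (hc.comp (Primrec.fst.comp Primrec.snd)) (Primrec.snd.comp Primrec.snd)
      (rl_fneg.comp (Primrec.snd.comp Primrec.snd))

theorem rl_rel3 {n : ℕ} : Primrec (fun p : FS n × (ℕ × ℕ) => rel3L p.1 p.2.1 p.2.2) := by
  unfold rel3L
  refine Primrec.list_append.comp ?_ ?_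
  · refine Primrec.list_map Primrec.fst ?_
    show Primrec (fun r : (FS n × (ℕ × ℕ)) × (Bool × List (Fin n)) =>
      (r.2.1, (Sum.inr 1 :: (r.2.2.map .inl ++ (List.replicate r.1.2.2 (.inr 0) ++ [.inr 2])) :
        List (GD n))))
    refine (Primrec.fst.comp Primrec.snd).pair ?_
    refine Primrec.list_cons.comp (Primrec.const _) ?_
    refine Primrec.list_append.comp (rc_inl.comp (Primrec.snd.comp Primrec.snd)) ?_
    exact Primrec.list_append.comp
      (rc_rep.comp (Primrec.snd.comp (Primrec.snd.comp Primrec.fst)) (Primrec.const _))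
      (Primrec.const _)
  · exact Primrec.ite (rc_sqc.comp (Primrec.fst.comp Primrec.snd) (Primrec.snd.comp Primrec.snd))
      (Primrec.const _) (Primrec.const _)

/-- decision of being sorted -/
def srt (l : List ℕ) : Bool :=
  List.recOn l true (fun b l IH => decide (∀ c ∈ l, b ≤ c) && IH)

theorem srt_primrec : Primrec srt := by
  unfold srt
  refine Primrec.list_rec (h := fun _ (p : ℕ × List ℕ × Bool) =>
    decide (∀ c ∈ p.2.1, p.1 ≤ c) && p.2.2) Primrec.id (Primrec.const true) ?_
  show Primrec (fun r : List ℕ × (ℕ × List ℕ × Bool) =>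
    decide (∀ c ∈ r.2.2.1, r.2.1 ≤ c) && r.2.2.2)
  have hR : PrimrecRel (fun (c b : ℕ) => b ≤ c) :=
    Primrec.nat_le.comp Primrec.snd Primrec.fst
  have h := hR.forall_mem_list
  have h2 : PrimrecPred (fun r : List ℕ × (ℕ × List ℕ × Bool) => ∀ c ∈ r.2.2.1, r.2.1 ≤ c) :=
    h.comp (Primrec.fst.comp (Primrec.snd.comp Primrec.snd)) (Primrec.fst.comp Primrec.snd)
  exact Primrec.and.comp h2.decide (Primrec.snd.comp (Primrec.snd.comp Primrec.snd))

theorem srt_iff (l : List ℕ) : srt l = true ↔ l.Pairwise (· ≤ ·) := by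
  induction l with
  | nil => simp [srt]
  | cons a l ih =>
    rw [List.pairwise_cons, ← ih]
    show (decide (∀ c ∈ l, a ≤ c) && srt l) = true ↔ _
    simp

theorem all_comp {Bc : ℕ → Prop} [DecidablePred Bc] (hD : Computable (fun a => decide (Bc a))) :
    ∃ g : List ℕ → Bool, Computable g ∧ ∀ l, g l = true ↔ ∀ c ∈ l, Bc c := by
  have h1 : Computable (fun l : List ℕ => (Nat.rec (motive := fun _ => Bool) true
      (fun y IH => IH && decide (Bc (l.getD y 0))) l.length : Bool)) := by
    refine Computable.nat_rec (f := fun l : List ℕ => l.length) (g := fun _ => true)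
      (h := fun (l : List ℕ) (p : ℕ × Bool) => p.2 && decide (Bc (l.getD p.1 0))) ?_ ?_ ?_
    · exact Computable.list_length
    · exact Computable.const true
    · show Computable (fun r : List ℕ × (ℕ × Bool) => r.2.2 && decide (Bc (r.1.getD r.2.1 0)))
      refine Primrec.and.to_comp.comp (Computable.snd.comp Computable.snd) ?_
      refine hD.comp ?_
      exact (Primrec.list_getD 0).to_comp.comp Computable.fst (Computable.fst.comp Computable.snd)
  refine ⟨_, h1, fun l => ?_⟩
  have key : ∀ k, k ≤ l.length → ((Nat.rec (motive := fun _ => Bool) true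
      (fun y IH => IH && decide (Bc (l.getD y 0))) k : Bool) = true ↔
      ∀ i, i < k → Bc (l.getD i 0)) := by
    intro k
    induction k with
    | zero => intro _; simp
    | succ k ih =>
      intro hk
      show ((Nat.rec (motive := fun _ => Bool) true
        (fun y IH => IH && decide (Bc (l.getD y 0))) k : Bool) && decide (Bc (l.getD k 0))) = true ↔ _
      rw [Bool.and_eq_true, ih (by omega), decide_eq_true_iff]
      constructor
      · rintro ⟨h1, h2⟩ i hi
        rcases Nat.lt_succ_iff_lt_or_eq.1 hi with h | h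
        · exact h1 i h
        · rw [h]; exact h2
      · intro h
        exact ⟨fun i hi => h i (by omega), h k (by omega)⟩
  rw [key l.length le_rfl]
  constructor
  · intro h c hc
    obtain ⟨i, hi, rfl⟩ := List.mem_iff_getElem.1 hc
    have := h i hi
    rwa [List.getD_eq_getElem _ _ hi] at this
  · intro h i hi
    rw [List.getD_eq_getElem _ _ hi]
    exact h _ (List.getElem_mem hi)


theorem rl_rel3c (n : ℕ) : Computable (fun p : List ℕ × ℕ =>
    rel3L (ECL n p.1) (Encodable.encode p.1) p.2) := by
  have hq : Primrec (fun p : List ℕ × ℕ =>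
      ((ECL n p.1, (Encodable.encode p.1, p.2)) : FS n × (ℕ × ℕ))) := by
    refine Primrec.pair ?_ (Primrec.pair ?_ ?_)
    · exact (rl_ECL n).comp Primrec.fst
    · exact Primrec.encode.comp Primrec.fst
    · exact Primrec.snd
  have h := rl_rel3.comp hq
  exact (h.of_eq (fun p => rfl)).to_comp

theorem t_RCOMP : S_RCOMP := by
  intro n Bc f hBc hf
  obtain ⟨inst, hD⟩ := hBc
  obtain ⟨g, hg, hgi⟩ := all_comp hD
  have hE : Computable (EC n) := (rl_EC n).to_comp
  have hmap : Primrec (fun p : List (ℤ × ℕ) => p.map (fun p => (p.1, EC n p.2))) := by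
    refine Primrec.list_map Primrec.id ?_
    show Primrec (fun r : List (ℤ × ℕ) × (ℤ × ℕ) => (r.2.1, EC n r.2.2))
    exact (Primrec.fst.comp Primrec.snd).pair ((rl_EC n).comp (Primrec.snd.comp Primrec.snd))
  have hone : Computable (fun k : ℕ => (bif decide ((EC n k).length = 0) then [] else
      rel1L (EC n k) ((f k).1, (f k).2.map (fun p => (p.1, EC n p.2))) :
      List (Bool × List (GD n)))) := by
    refine Computable.cond ?_ (Computable.const _) ?_
    · have : PrimrecPred (fun k : ℕ => (EC n k).length = 0) :=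
        Primrec.eq.comp (Primrec.list_length.comp (rl_EC n)) (Primrec.const 0)
      exact this.decide.to_comp
    · exact rl_rel1.to_comp.comp hE
        ((Computable.fst.comp hf).pair (hmap.to_comp.comp (Computable.snd.comp hf)))
  have h3 : Computable (fun t : Fin n ⊕ (List ℕ × ℕ) =>
      (Sum.casesOn t (fun k => rel2 k)
        (fun p => bif (g p.1 && srt p.1) then rel3L (ECL n p.1) (Encodable.encode p.1) p.2
          else []) : List (Bool × List (GD n)))) := by
    refine Computable.sumCasesOn Computable.id ?_ ?_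
    · exact (rc_rel2.to_comp.comp Computable.snd).to₂
    · show Computable (fun r : (Fin n ⊕ (List ℕ × ℕ)) × (List ℕ × ℕ) =>
        bif (g r.2.1 && srt r.2.1) then rel3L (ECL n r.2.1) (Encodable.encode r.2.1) r.2.2
          else [])
      refine Computable.cond ?_ ?_ (Computable.const _)
      · exact Primrec.and.to_comp.comp (hg.comp (Computable.fst.comp Computable.snd))
          (srt_primrec.to_comp.comp (Computable.fst.comp Computable.snd))
      · have h := (rl_rel3c n).comp (Computable.snd (α := Fin n ⊕ (List ℕ × ℕ)) (β := List ℕ × ℕ))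
        exact h
  have h2 : Computable (fun s : ℕ ⊕ (Fin n ⊕ (List ℕ × ℕ)) =>
      (Sum.casesOn s (fun k => bif decide ((EC n k).length = 0) then [] else
        rel1L (EC n k) ((f k).1, (f k).2.map (fun p => (p.1, EC n p.2))))
        (fun t => Sum.casesOn t (fun k => rel2 k)
        (fun p => bif (g p.1 && srt p.1) then rel3L (ECL n p.1) (Encodable.encode p.1) p.2
          else [])) : List (Bool × List (GD n)))) := by
    refine Computable.sumCasesOn Computable.id ?_ ?_
    · exact (hone.comp Computable.snd).to₂
    · exact (h3.comp Computable.snd).to₂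
  have h1 := Computable.option_casesOn (o := fun i : ℕ =>
    (Encodable.decode i : Option (ℕ ⊕ (Fin n ⊕ (List ℕ × ℕ)))))
    Computable.decode (Computable.const ([] : List (Bool × List (GD n))))
    (h2.comp Computable.snd).to₂
  refine h1.of_eq fun i => ?_
  unfold relL
  generalize (Encodable.decode i : Option (ℕ ⊕ (Fin n ⊕ (List ℕ × ℕ)))) = o
  rcases o with _ | (k | (k | p))
  · rfl
  · show (bif decide ((EC n k).length = 0) then [] else
        rel1L (EC n k) ((f k).1, (f k).2.map (fun p => (p.1, EC n p.2)))) = _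
    by_cases hk : EC n k = []
    · simp [hk]
    · have : ¬ (EC n k).length = 0 := by
        rwa [List.length_eq_zero_iff]
      simp [hk]
  · rfl
  · show (bif (g p.1 && srt p.1) then rel3L (ECL n p.1) (Encodable.encode p.1) p.2
          else []) = _
    by_cases hp : (∀ c ∈ p.1, Bc c) ∧ p.1.Pairwise (· ≤ ·)
    · have e1 : g p.1 = true := (hgi _).2 hp.1
      have e2 : srt p.1 = true := (srt_iff _).2 hp.2
      simp only [e1, e2, Bool.and_self, cond_true]
      rw [if_pos hp]
    · have e1 : (g p.1 && srt p.1) = false := by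
        rw [Bool.eq_false_iff]
        intro h
        rw [Bool.and_eq_true] at h
        exact hp ⟨(hgi _).1 h.1, (srt_iff _).1 h.2⟩
      simp only [e1, cond_false]
      rw [if_neg hp]

end Pool.Agent.Y839.LQ
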