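import Pool.Agent.Y208.LQ.Stm

/-!
# Job 1355 (LQ-STW): Steinberg generators indexed by words
-/

set_option autoImplicit false

namespace Pool.Agent.Y839.LQ

open Y208.LQ

section words

variable {X g : Type} [LieRing g] (T : Option X → Fin 5 → Fin 5 → g)

/-- an index different from two given ones -/
def ch (i j : Fin 5) : Fin 5 := if 0 ≠ i ∧ 0 ≠ j then 0 else if 1 ≠ i ∧ 1 ≠ j then 1 else 2

lemma ch_spec : ∀ i j : Fin 5, ch i j ≠ i ∧ ch i j ≠ j := by decide

lemma fresh (a b c d : Fin 5) : ∃ m : Fin 5, m ≠ a ∧ m ≠ b ∧ m ≠ c ∧ m ≠ d := by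
  by_contra h
  push Not at h
  have h1 : ({a, b, c, d} : Finset (Fin 5)) = Finset.univ := by
    rw [Finset.eq_univ_iff_forall]
    intro m
    simp only [Finset.mem_insert, Finset.mem_singleton]
    by_cases h1 : m = a
    · exact Or.inl h1
    by_cases h2 : m = b
    · exact Or.inr (Or.inl h2)
    by_cases h3 : m = c
    · exact Or.inr (Or.inr (Or.inl h3))
    exact Or.inr (Or.inr (Or.inr (h m h1 h2 h3)))
  have h2 : ({a, b, c, d} : Finset (Fin 5)).card ≤ 4 := Finset.card_le_four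
  rw [h1] at h2
  simp at h2

/-- the generator of a word -/
def W : List X → Fin 5 → Fin 5 → g
  | [], i, j => T none i j
  | x :: w, i, j => ⁅T (some x) i (ch i j), W w (ch i j) j⁆

variable {T}

lemma key
    (h1 : ∀ x y i j k l, i ≠ j → k ≠ l → j ≠ k → i ≠ l → ⁅T x i j, T y k l⁆ = 0)
    (h2 : ∀ x i j k, i ≠ j → j ≠ k → i ≠ k → ⁅T x i j, T none j k⁆ = T x i k)
    (h3 : ∀ x i j k, i ≠ j → j ≠ k → i ≠ k → ⁅T none i j, T x j k⁆ = T x i k)
    (h4 : ∀ x y i j j' k, i ≠ j → j ≠ k → i ≠ k → i ≠ j' → j' ≠ k →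
      ⁅T x i j, T y j k⁆ = ⁅T x i j', T y j' k⁆) (v : List X) :
    (∀ x i j k l, i ≠ j → k ≠ l → j ≠ k → i ≠ l → ⁅T x i j, W T v k l⁆ = 0) ∧
    (∀ x i j k k', i ≠ j → k ≠ i → k ≠ j → k' ≠ i → k' ≠ j →
      ⁅T x i k, W T v k j⁆ = ⁅T x i k', W T v k' j⁆) ∧
    (∀ i j k, i ≠ j → k ≠ i → k ≠ j → ⁅T none i k, W T v k j⁆ = W T v i j) := by
  induction v with
  | nil =>
    refine ⟨fun x i j k l => h1 x none i j k l, ?_, ?_⟩
    · intro x i j k k' hij hki hkj hk'i hk'j
      change ⁅T x i k, T none k j⁆ = ⁅T x i k', T none k' j⁆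
      rw [h2 x i k j hki.symm hkj hij, h2 x i k' j hk'i.symm hk'j hij]
    · intro i j k hij hki hkj
      exact h2 none i k j hki.symm hkj hij
  | cons y w ih =>
    obtain ⟨iha, ihb, ihd⟩ := ih
    have wc : ∀ k l m, k ≠ l → m ≠ k → m ≠ l → W T (y :: w) k l = ⁅T (some y) k m, W T w m l⁆ := by
      intro k l m hkl hmk hml
      have hc := ch_spec k l
      exact ihb (some y) k l (ch k l) m hkl hc.1 hc.2 hmk hml
    refine ⟨?_, ?_, ?_⟩
    · intro x i j k l hij hkl hjk hil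
      obtain ⟨m, hmi, hmj, hmk, hml⟩ := fresh i j k l
      rw [wc k l m hkl hmk hml, leibniz_lie, h1 x (some y) i j k m hij hmk.symm hjk hmi.symm,
        iha x i j m l hij hml hmj.symm hil, zero_lie, lie_zero, add_zero]
    · intro x i j k k' hij hki hkj hk'i hk'j
      obtain ⟨m, hmi, hmj, hmk, hmk'⟩ := fresh i j k k'
      rw [wc k j m hkj hmk hmj, wc k' j m hk'j hmk' hmj, leibniz_lie (T x i k),
        leibniz_lie (T x i k'), iha x i k m j hki.symm hmj hmk.symm hij,
        iha x i k' m j hk'i.symm hmj hmk'.symm hij, lie_zero, lie_zero, add_zero, add_zero,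
        h4 x (some y) i k k' m hki.symm hmk.symm hmi.symm hk'i.symm hmk'.symm]
    · intro i j k hij hki hkj
      obtain ⟨m, hmi, hmj, hmk, -⟩ := fresh i j k k
      rw [wc k j m hkj hmk hmj, leibniz_lie, iha none i k m j hki.symm hmj hmk.symm hij, lie_zero,
        add_zero, h3 (some y) i k m hki.symm hmk.symm hmi.symm, ← wc i j m hij hmi hmj]

lemma key2
    (h1 : ∀ x y i j k l, i ≠ j → k ≠ l → j ≠ k → i ≠ l → ⁅T x i j, T y k l⁆ = 0)
    (h2 : ∀ x i j k, i ≠ j → j ≠ k → i ≠ k → ⁅T x i j, T none j k⁆ = T x i k)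
    (h3 : ∀ x i j k, i ≠ j → j ≠ k → i ≠ k → ⁅T none i j, T x j k⁆ = T x i k)
    (h4 : ∀ x y i j j' k, i ≠ j → j ≠ k → i ≠ k → i ≠ j' → j' ≠ k →
      ⁅T x i j, T y j k⁆ = ⁅T x i j', T y j' k⁆) (u : List X) :
    ∀ v : List X, (∀ i j k, i ≠ j → j ≠ k → i ≠ k → ⁅W T u i j, W T v j k⁆ = W T (u ++ v) i k) ∧
      ∀ i j k l, i ≠ j → k ≠ l → j ≠ k → i ≠ l → ⁅W T u i j, W T v k l⁆ = 0 := by
  induction u with
  | nil =>
    intro v
    obtain ⟨ka, -, kd⟩ := key h1 h2 h3 h4 v
    exact ⟨fun i j k hij hjk hik => kd i k j hik hij.symm hjk, fun i j k l => ka none i j k l⟩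
  | cons x u ih =>
    intro v
    obtain ⟨ih1, ih2⟩ := ih v
    obtain ⟨ka, kb, kd⟩ := key h1 h2 h3 h4 v
    have wc : ∀ (w : List X) (k l m), k ≠ l → m ≠ k → m ≠ l →
        W T (x :: w) k l = ⁅T (some x) k m, W T w m l⁆ := by
      intro w k l m hkl hmk hml
      have hc := ch_spec k l
      exact (key h1 h2 h3 h4 w).2.1 (some x) k l (ch k l) m hkl hc.1 hc.2 hmk hml
    refine ⟨?_, ?_⟩
    · intro i j k hij hjk hik
      obtain ⟨m, hmi, hmj, hmk, -⟩ := fresh i j k k
      rw [wc u i j m hij hmi hmj, lie_lie, ka (some x) i m j k hmi.symm hjk hmj hik, lie_zero,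
        sub_zero, ih1 m j k hmj hjk hmk, ← wc (u ++ v) i k m hik hmi hmk]
      rfl
    · intro i j k l hij hkl hjk hil
      obtain ⟨m, hmi, hmj, hmk, hml⟩ := fresh i j k l
      rw [wc u i j m hij hmi hmj, lie_lie, ka (some x) i m k l hmi.symm hkl hmk hil, lie_zero,
        sub_zero, ih2 m j k l hmj hkl hjk hml, lie_zero]

end words

section basis

variable (F X : Type) [Field F]

lemma basis_word (w : FreeMonoid X) :
    FreeAlgebra.basisFreeMonoid F X w = FreeMonoid.lift (FreeAlgebra.ι F) w := by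
  simp [FreeAlgebra.basisFreeMonoid, FreeAlgebra.equivMonoidAlgebraFreeMonoid]

end basis

theorem t_STW : S_STW := by
  intro F X g _ _ _ T h1 h2 h3 h4
  set B := FreeAlgebra.basisFreeMonoid F X with hB
  have hBm : ∀ u v, B u * B v = B (u * v) := by
    intro u v
    rw [hB, basis_word, basis_word, basis_word, map_mul]
  have hB1 : B 1 = 1 := by rw [hB, basis_word, map_one]
  have hBx : ∀ x, B (FreeMonoid.of x) = FreeAlgebra.ι F x := by
    intro x
    rw [hB, basis_word, FreeMonoid.lift_eval_of]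
  set E : Fin 5 → Fin 5 → FreeAlgebra F X →ₗ[F] g :=
    fun i j => B.constr F (fun w => W T w.toList i j) with hE
  have hEB : ∀ i j w, E i j (B w) = W T w.toList i j := fun i j w => B.constr_basis F _ w
  -- bilinear extension
  have ext2 : ∀ (L1 L2 : FreeAlgebra F X →ₗ[F] FreeAlgebra F X →ₗ[F] g),
      (∀ u v, L1 (B u) (B v) = L2 (B u) (B v)) → L1 = L2 := by
    intro L1 L2 h
    apply B.ext
    intro u
    apply B.ext
    intro v
    exact h u v
  refine ⟨E, ?_, ?_, ?_, ?_⟩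
  · intro i j _
    rw [← hB1, hEB]
    rfl
  · intro x i j hij
    rw [← hBx, hEB]
    have hc := ch_spec i j
    change ⁅T (some x) i (ch i j), T none (ch i j) j⁆ = _
    exact h2 (some x) i (ch i j) j hc.1.symm hc.2 hij
  · intro i j k hij hjk hik a b
    have h := ext2
      ((LieModule.toEnd F g g : g →ₗ[F] Module.End F g).compl₁₂ (E i j) (E j k))
      ((LinearMap.mul F (FreeAlgebra F X)).compr₂ (E i k)) (by
        intro u v
        change ⁅E i j (B u), E j k (B v)⁆ = E i k (B u * B v)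
        rw [hBm, hEB, hEB, hEB]
        exact (key2 h1 h2 h3 h4 u.toList v.toList).1 i j k hij hjk hik)
    exact congrArg (fun L => L a b) h
  · intro i j k l hij hkl hjk hil a b
    have h := ext2
      ((LieModule.toEnd F g g : g →ₗ[F] Module.End F g).compl₁₂ (E i j) (E k l)) 0 (by
        intro u v
        change ⁅E i j (B u), E k l (B v)⁆ = 0
        rw [hEB, hEB]
        exact (key2 h1 h2 h3 h4 u.toList v.toList).2 i j k l hij hkl hjk hil)
    exact congrArg (fun L => L a b) h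

end Pool.Agent.Y839.LQ
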