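import Pool.Agent.Y208.LQ.Stm
import Pool.Agent.Helper702.SF.P_finPres_of

/-!
# Job 1359 (LQ-TFP): tensor products of finitely presented algebras are finitely presented
-/

set_option autoImplicit false

open scoped TensorProduct

namespace Pool.Agent.Y839.LQ

open Pool.SF Y208.LQ

section quot

variable {F : Type} [Field F] {n m : ℕ} (R1 : Finset (FreeAlgebra F (Fin n)))
  (R2 : Finset (FreeAlgebra F (Fin m)))

/-- the relations of a finite presentation -/
abbrev rl (R : Finset (FreeAlgebra F (Fin n))) : FreeAlgebra F (Fin n) → FreeAlgebra F (Fin n) → Prop :=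
  fun p q => p ∈ R ∧ q = 0

/-- inclusion of the first letters -/
noncomputable def jL (F : Type) [Field F] (n m : ℕ) :
    FreeAlgebra F (Fin n) →ₐ[F] FreeAlgebra F (Fin n ⊕ Fin m) :=
  FreeAlgebra.lift F (fun i => FreeAlgebra.ι F (Sum.inl i))

/-- inclusion of the last letters -/
noncomputable def jR (F : Type) [Field F] (n m : ℕ) :
    FreeAlgebra F (Fin m) →ₐ[F] FreeAlgebra F (Fin n ⊕ Fin m) :=
  FreeAlgebra.lift F (fun i => FreeAlgebra.ι F (Sum.inr i))

/-- left hand sides -/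
noncomputable def lhs : ({p // p ∈ R1} ⊕ {p // p ∈ R2}) ⊕ (Fin n × Fin m) →
    FreeAlgebra F (Fin n ⊕ Fin m)
  | .inl (.inl p) => jL F n m p.1
  | .inl (.inr p) => jR F n m p.1
  | .inr (i, j) => FreeAlgebra.ι F (Sum.inl i) * FreeAlgebra.ι F (Sum.inr j)

/-- right hand sides -/
noncomputable def rhs : ({p // p ∈ R1} ⊕ {p // p ∈ R2}) ⊕ (Fin n × Fin m) →
    FreeAlgebra F (Fin n ⊕ Fin m)
  | .inl _ => 0
  | .inr (i, j) => FreeAlgebra.ι F (Sum.inr j) * FreeAlgebra.ι F (Sum.inl i)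

/-- all relations -/
def rr (p q : FreeAlgebra F (Fin n ⊕ Fin m)) : Prop := ∃ i, p = lhs R1 R2 i ∧ q = rhs R1 R2 i

theorem tensor_quot : Nonempty ((RingQuot (rl R1) ⊗[F] RingQuot (rl R2)) ≃ₐ[F]
    RingQuot (rr R1 R2)) := by
  set mk : FreeAlgebra F (Fin n ⊕ Fin m) →ₐ[F] RingQuot (rr R1 R2) :=
    RingQuot.mkAlgHom F (rr R1 R2) with hmk
  set mk1 : FreeAlgebra F (Fin n) →ₐ[F] RingQuot (rl R1) := RingQuot.mkAlgHom F (rl R1) with hmk1
  set mk2 : FreeAlgebra F (Fin m) →ₐ[F] RingQuot (rl R2) := RingQuot.mkAlgHom F (rl R2) with hmk2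
  have hL : ∀ ⦃x y : FreeAlgebra F (Fin n)⦄, rl R1 x y →
      (mk.comp (jL F n m)) x = (mk.comp (jL F n m)) y := by
    rintro x y ⟨hx, rfl⟩
    have h := RingQuot.mkAlgHom_rel F (s := rr R1 R2) (x := jL F n m x) (y := 0)
      ⟨.inl (.inl ⟨x, hx⟩), rfl, rfl⟩
    rw [map_zero] at h
    rw [map_zero]
    exact h
  have hR : ∀ ⦃x y : FreeAlgebra F (Fin m)⦄, rl R2 x y →
      (mk.comp (jR F n m)) x = (mk.comp (jR F n m)) y := by
    rintro x y ⟨hx, rfl⟩
    have h := RingQuot.mkAlgHom_rel F (s := rr R1 R2) (x := jR F n m x) (y := 0)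
      ⟨.inl (.inr ⟨x, hx⟩), rfl, rfl⟩
    rw [map_zero] at h
    rw [map_zero]
    exact h
  set β : RingQuot (rl R1) →ₐ[F] RingQuot (rr R1 R2) := RingQuot.liftAlgHom F ⟨_, hL⟩ with hβ
  set σ : RingQuot (rl R2) →ₐ[F] RingQuot (rr R1 R2) := RingQuot.liftAlgHom F ⟨_, hR⟩ with hσ
  have hβ' : ∀ p, β (mk1 p) = mk (jL F n m p) := fun p =>
    RingQuot.liftAlgHom_mkAlgHom_apply F _ hL p
  have hσ' : ∀ p, σ (mk2 p) = mk (jR F n m p) := fun p =>
    RingQuot.liftAlgHom_mkAlgHom_apply F _ hR p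
  have hgen : ∀ i j, mk (FreeAlgebra.ι F (Sum.inl i)) * mk (FreeAlgebra.ι F (Sum.inr j)) =
      mk (FreeAlgebra.ι F (Sum.inr j)) * mk (FreeAlgebra.ι F (Sum.inl i)) := by
    intro i j
    rw [← map_mul, ← map_mul]
    exact RingQuot.mkAlgHom_rel F (s := rr R1 R2) ⟨.inr (i, j), rfl, rfl⟩
  have hcomm1 : ∀ (i : Fin n) (q : FreeAlgebra F (Fin m)),
      Commute (mk (FreeAlgebra.ι F (Sum.inl i))) (mk (jR F n m q)) := by
    intro i q
    induction q using FreeAlgebra.induction with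
    | grade0 r =>
      rw [AlgHom.commutes, AlgHom.commutes]
      exact (Algebra.commutes r _).symm
    | grade1 j =>
      have e : jR F n m (FreeAlgebra.ι F j) = FreeAlgebra.ι F (Sum.inr j) :=
        FreeAlgebra.lift_ι_apply _ _
      rw [e]
      exact hgen i j
    | mul a b ha hb => rw [map_mul, map_mul]; exact ha.mul_right hb
    | add a b ha hb => rw [map_add, map_add]; exact ha.add_right hb
  have hcomm2 : ∀ (p : FreeAlgebra F (Fin n)) (q : FreeAlgebra F (Fin m)),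
      Commute (mk (jL F n m p)) (mk (jR F n m q)) := by
    intro p q
    induction p using FreeAlgebra.induction with
    | grade0 r =>
      rw [AlgHom.commutes, AlgHom.commutes]
      exact Algebra.commutes r _
    | grade1 i =>
      have e : jL F n m (FreeAlgebra.ι F i) = FreeAlgebra.ι F (Sum.inl i) :=
        FreeAlgebra.lift_ι_apply _ _
      rw [e]
      exact hcomm1 i q
    | mul a b ha hb => rw [map_mul, map_mul]; exact ha.mul_left hb
    | add a b ha hb => rw [map_add, map_add]; exact ha.add_left hb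
  have hcomm : ∀ x y, Commute (β x) (σ y) := by
    intro x y
    obtain ⟨p, rfl⟩ := RingQuot.mkAlgHom_surjective F (rl R1) x
    obtain ⟨q, rfl⟩ := RingQuot.mkAlgHom_surjective F (rl R2) y
    have h := hcomm2 p q
    rw [← hβ', ← hσ'] at h
    exact h
  set back : RingQuot (rl R1) ⊗[F] RingQuot (rl R2) →ₐ[F] RingQuot (rr R1 R2) :=
    Algebra.TensorProduct.lift β σ hcomm with hback
  set f : FreeAlgebra F (Fin n ⊕ Fin m) →ₐ[F] RingQuot (rl R1) ⊗[F] RingQuot (rl R2) :=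
    FreeAlgebra.lift F (Sum.elim (fun i => mk1 (FreeAlgebra.ι F i) ⊗ₜ[F] (1 : RingQuot (rl R2)))
      (fun j => (1 : RingQuot (rl R1)) ⊗ₜ[F] mk2 (FreeAlgebra.ι F j))) with hf
  have hfl : ∀ p, f (jL F n m p) = mk1 p ⊗ₜ[F] (1 : RingQuot (rl R2)) := by
    intro p
    have e : f.comp (jL F n m) =
        (Algebra.TensorProduct.includeLeft : _ →ₐ[F] RingQuot (rl R1) ⊗[F] RingQuot (rl R2)).comp
          mk1 := by
      apply FreeAlgebra.hom_ext
      funext i
      simp [hf, jL]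
    exact DFunLike.congr_fun e p
  have hfr : ∀ p, f (jR F n m p) = (1 : RingQuot (rl R1)) ⊗ₜ[F] mk2 p := by
    intro p
    have e : f.comp (jR F n m) =
        (Algebra.TensorProduct.includeRight : _ →ₐ[F] RingQuot (rl R1) ⊗[F] RingQuot (rl R2)).comp
          mk2 := by
      apply FreeAlgebra.hom_ext
      funext i
      simp [hf, jR]
    exact DFunLike.congr_fun e p
  have hfrel : ∀ ⦃x y : FreeAlgebra F (Fin n ⊕ Fin m)⦄, rr R1 R2 x y → f x = f y := by
    rintro x y ⟨i, rfl, rfl⟩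
    rcases i with (⟨p, hp⟩ | ⟨p, hp⟩) | ⟨i, j⟩
    · have h : mk1 p = 0 := by
        have h1 := RingQuot.mkAlgHom_rel F (s := rl R1) (x := p) (y := 0) ⟨hp, rfl⟩
        rwa [map_zero] at h1
      change f (jL F n m p) = f 0
      rw [hfl, h, map_zero, TensorProduct.zero_tmul]
    · have h : mk2 p = 0 := by
        have h1 := RingQuot.mkAlgHom_rel F (s := rl R2) (x := p) (y := 0) ⟨hp, rfl⟩
        rwa [map_zero] at h1
      change f (jR F n m p) = f 0
      rw [hfr, h, map_zero, TensorProduct.tmul_zero]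
    · change f (FreeAlgebra.ι F (Sum.inl i) * FreeAlgebra.ι F (Sum.inr j)) =
        f (FreeAlgebra.ι F (Sum.inr j) * FreeAlgebra.ι F (Sum.inl i))
      rw [map_mul, map_mul]
      simp [hf]
  set fwd : RingQuot (rr R1 R2) →ₐ[F] RingQuot (rl R1) ⊗[F] RingQuot (rl R2) :=
    RingQuot.liftAlgHom F ⟨f, hfrel⟩ with hfwd
  have hfwd' : ∀ p, fwd (mk p) = f p := fun p => RingQuot.liftAlgHom_mkAlgHom_apply F _ hfrel p
  have hbl : ∀ x, back (x ⊗ₜ[F] 1) = β x := by
    intro x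
    rw [hback, Algebra.TensorProduct.lift_tmul, map_one, mul_one]
  have hbr : ∀ y, back (1 ⊗ₜ[F] y) = σ y := by
    intro y
    rw [hback, Algebra.TensorProduct.lift_tmul, map_one, one_mul]
  refine ⟨AlgEquiv.ofAlgHom back fwd ?_ ?_⟩
  · apply RingQuot.ringQuot_ext'
    apply FreeAlgebra.hom_ext
    funext x
    rcases x with i | j
    · change back (fwd (mk (FreeAlgebra.ι F (Sum.inl i)))) = mk (FreeAlgebra.ι F (Sum.inl i))
      rw [hfwd']
      have e : f (FreeAlgebra.ι F (Sum.inl i)) = mk1 (FreeAlgebra.ι F i) ⊗ₜ[F] 1 := by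
        simp [hf]
      rw [e, hbl, hβ']
      simp [jL]
    · change back (fwd (mk (FreeAlgebra.ι F (Sum.inr j)))) = mk (FreeAlgebra.ι F (Sum.inr j))
      rw [hfwd']
      have e : f (FreeAlgebra.ι F (Sum.inr j)) = 1 ⊗ₜ[F] mk2 (FreeAlgebra.ι F j) := by
        simp [hf]
      rw [e, hbr, hσ']
      simp [jR]
  · apply Algebra.TensorProduct.ext
    · apply RingQuot.ringQuot_ext'
      apply FreeAlgebra.hom_ext
      funext i
      change fwd (back (mk1 (FreeAlgebra.ι F i) ⊗ₜ[F] 1)) = mk1 (FreeAlgebra.ι F i) ⊗ₜ[F] 1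
      rw [hbl, hβ', hfwd', hfl]
    · apply RingQuot.ringQuot_ext'
      apply FreeAlgebra.hom_ext
      funext i
      change fwd (back (1 ⊗ₜ[F] mk2 (FreeAlgebra.ι F i))) = 1 ⊗ₜ[F] mk2 (FreeAlgebra.ι F i)
      rw [hbr, hσ', hfwd', hfr]

end quot

theorem t_TFP : S_TFP := by
  intro F B S _ _ _ _ _ hB hS
  obtain ⟨n, R1, ⟨e1⟩⟩ := hB
  obtain ⟨m, R2, ⟨e2⟩⟩ := hS
  obtain ⟨e⟩ := tensor_quot R1 R2
  obtain ⟨N, R, ⟨e3⟩⟩ := finPres_of (F := F) (lhs R1 R2) (rhs R1 R2)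
  exact ⟨N, R, ⟨((Algebra.TensorProduct.congr e1 e2).trans e).trans e3⟩⟩

end Pool.Agent.Y839.LQ
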